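import Pool.Agent.Q235.SubTreeC

/-!
# A label invariant operator for which `Σ₁` has two components and the spectrum has one
-/

set_option autoImplicit false

namespace Pool.Agent.Results.MP_750254_mp.TwoComponents

open scoped ENNReal

/-- The conditions on the substitution matrix: row sums at least two, positive diagonal,
primitive. -/
structure IsAdmissible {A : Type} [Fintype A] [DecidableEq A] (M : Matrix A A ℕ) : Prop where
  row : ∀ j, 2 ≤ ∑ k, M j k
  diag : ∀ j, 1 ≤ M j j
  primitive : ∃ n : ℕ, ∀ j k, 0 < (M ^ n) j k

/-- The rooted tree `𝕋(M, j)` with its labelling: it is given by the root and the parent map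
(every vertex reaches the root by iterating the parent map; the value at the root is irrelevant),
the root has label `j`, and every vertex `x` has exactly `M (label x) l` children of label `l`. -/
structure LabelledTree {A : Type} (M : Matrix A A ℕ) (j : A) where
  V : Type
  root : V
  parent : V → V
  label : V → A
  parent_root : parent root = root
  reach : ∀ x, ∃ n : ℕ, parent^[n] x = root
  label_root : label root = j
  children : ∀ x l, {y | y ≠ root ∧ parent y = x ∧ label y = l}.encard = M (label x) l

/-- Two vertices are neighbours if one of them is the parent of the other. -/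
def LabelledTree.Adj {A : Type} {M : Matrix A A ℕ} {j : A} (𝕋 : LabelledTree M j)
    (x y : 𝕋.V) : Prop :=
  (y ≠ 𝕋.root ∧ 𝕋.parent y = x) ∨ (x ≠ 𝕋.root ∧ 𝕋.parent x = y)

/-- The Hilbert space `ℓ²(V)`. -/
abbrev L2 (V : Type) : Type := lp (fun _ : V => ℂ) 2

/-- The bounded operators on `ℓ²(V)`. -/
abbrev Op (V : Type) : Type := L2 V →L[ℂ] L2 V

/-- The bounded operator `T` on a Hilbert space is self-adjoint. -/
def IsSA {H : Type} [NormedAddCommGroup H] [InnerProductSpace ℂ H] [CompleteSpace H]
    (T : H →L[ℂ] H) : Prop := IsSelfAdjoint T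

/-- The real points of the spectrum of a bounded operator on a Hilbert space (for a self-adjoint
operator this is the spectrum). -/
def realSpectrum {H : Type} [NormedAddCommGroup H] [InnerProductSpace ℂ H]
    (T : H →L[ℂ] H) : Set ℝ := {E | (E : ℂ) ∈ spectrum ℂ T}

/-- The value `φ(x)` of `φ` at `x`. -/
noncomputable def val {V : Type} (φ : L2 V) (x : V) : ℂ := φ x

/-- The vector `T φ`. -/
noncomputable def ap {V : Type} (T : Op V) (φ : L2 V) : L2 V := T φ

/-- The operator `T` is given by the off-diagonal coefficients `t` and by the potential `w`: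
`(T φ)(x) = ∑_y t(x, y) φ(y) + w(x) φ(x)`. -/
def ActsBy {V : Type} (T : Op V) (t : V → V → ℂ) (w : V → ℝ) : Prop :=
  ∀ (φ : L2 V) (x : V), val (ap T φ) x = (∑' y, t x y * val φ y) + (w x : ℂ) * val φ x

/-- `T` is a label invariant operator on `ℓ²(V, ν)` with the weight `ν = 1`, with off-diagonal
coefficients `t x y`, and with the constants `mm j k` (in the text `m_{j,k}`) and `m j`. -/
structure IsLabelInvariant {A : Type} {M : Matrix A A ℕ} {j : A} (𝕋 : LabelledTree M j)
    (mm : A → A → ℝ) (m : A → ℝ) (t : 𝕋.V → 𝕋.V → ℂ)
    (T : Op 𝕋.V) : Prop where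
  selfAdjoint : IsSA T
  apply : ActsBy T t (fun x => m (𝕋.label x))
  ne_zero_iff : ∀ x y, t x y ≠ 0 ↔ 𝕋.Adj x y
  symm : ∀ x y, t x y = (starRingEnd ℂ) (t y x)
  norm_sq : ∀ x y, 𝕋.Adj x y →
    ‖t x y‖ ^ 2 * (M (𝕋.label x) (𝕋.label y) : ℝ) = mm (𝕋.label x) (𝕋.label y)

/-- The set `Σ₁` of the real `E` for which the polynomial system has a solution in the product of
upper half planes. -/
def SigmaOne {A : Type} [Fintype A] (mm : A → A → ℝ) (m : A → ℝ) : Set ℝ :=
  {E | ∃ ξ : A → ℂ, (∀ j, 0 < (ξ j).im) ∧
    ∀ j, ξ j * ((E : ℂ) - m j + ∑ k, (mm j k : ℂ) * ξ k) + 1 = 0}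

/-- The number of connected components of a set of real numbers. -/
noncomputable def numComponents (S : Set ℝ) : ℕ := Nat.card (ConnectedComponents S)

/-! ### The example -/

open Q235.SubTree

/-- The matrix with all four entries equal to one. -/
def M1 : Matrix Bool Bool ℕ := fun _ _ => 1

theorem M1_admissible : IsAdmissible M1 where
  row j := by simp [M1]
  diag j := le_rfl
  primitive := ⟨1, fun j k => by simp [M1]⟩

/-- The binary tree of words. -/
def tree (j : Bool) : LabelledTree M1 j where
  V := List Bool
  root := []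
  parent := List.tail
  label := lab j
  parent_root := rfl
  reach x := by
    refine ⟨x.length, ?_⟩
    induction x with
    | nil => rfl
    | cons b x ih => exact ih
  label_root := rfl
  children x l := by
    have : {y : List Bool | y ≠ [] ∧ List.tail y = x ∧ lab j y = l} = {l :: x} := by
      ext y
      constructor
      · rintro ⟨h1, h2, h3⟩
        rcases y with _ | ⟨b, y⟩
        · exact absurd rfl h1
        · have h3' : b = l := h3
          have h2' : y = x := h2
          rw [h2', h3']
          rfl
      · rintro rfl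
        exact ⟨List.cons_ne_nil _ _, rfl, rfl⟩
    rw [this]
    simp [M1]

open Classical in
/-- The coefficients: one on neighbours, zero otherwise. -/
noncomputable def coef (j : Bool) (x y : List Bool) : ℂ := if (tree j).Adj x y then 1 else 0

theorem adj_iff (j : Bool) (x y : List Bool) : (tree j).Adj x y ↔
    (y = true :: x ∨ y = false :: x) ∨ (x ≠ [] ∧ x.tail = y) := by
  constructor
  · rintro (⟨h1, h2⟩ | ⟨h1, h2⟩)
    · left
      rcases y with _ | ⟨b, y⟩
      · exact absurd rfl h1
      · have h2' : y = x := h2
        rw [h2']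
        cases b
        · right; rfl
        · left; rfl
    · right
      exact ⟨h1, h2⟩
  · rintro ((rfl | rfl) | ⟨h1, h2⟩)
    · exact Or.inl ⟨List.cons_ne_nil _ _, rfl⟩
    · exact Or.inl ⟨List.cons_ne_nil _ _, rfl⟩
    · exact Or.inr ⟨h1, h2⟩

theorem adj_comm (j : Bool) (x y : List Bool) : (tree j).Adj x y ↔ (tree j).Adj y x := by
  unfold LabelledTree.Adj
  tauto

theorem T_formula (j : Bool) (φ : HH) (x : List Bool) :
    T j φ x = (∑' y : List Bool, coef j x y * φ y) + (wt (lab j x) : ℂ) * φ x := by
  classical
  have hsum : ∀ s : Finset (List Bool), (∀ y, coef j x y ≠ 0 → y ∈ s) →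
      ∑' y, coef j x y * φ y = ∑ y ∈ s, coef j x y * φ y := by
    intro s hs
    refine tsum_eq_sum fun y hy => ?_
    have : coef j x y = 0 := by
      by_contra h
      exact hy (hs y h)
    rw [this, zero_mul]
  rcases x with _ | ⟨b, x⟩
  · rw [hsum {[true], [false]} ?_]
    · have e1 : coef j [] [true] = 1 := if_pos ((adj_iff j _ _).2 (Or.inl (Or.inl rfl)))
      have e2 : coef j [] [false] = 1 := if_pos ((adj_iff j _ _).2 (Or.inl (Or.inr rfl)))
      rw [Finset.sum_pair (by simp), e1, e2, one_mul, one_mul]
      exact T_nil j φ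
    · intro y hy
      have : (tree j).Adj [] y := by
        by_contra h
        exact hy (if_neg h)
      rw [adj_iff] at this
      rcases this with (h | h) | ⟨h, -⟩
      · simp [h]
      · simp [h]
      · exact absurd rfl h
  · rw [hsum {true :: b :: x, false :: b :: x, x} ?_]
    · have e1 : coef j (b :: x) (true :: b :: x) = 1 :=
        if_pos ((adj_iff j _ _).2 (Or.inl (Or.inl rfl)))
      have e2 : coef j (b :: x) (false :: b :: x) = 1 :=
        if_pos ((adj_iff j _ _).2 (Or.inl (Or.inr rfl)))
      have e3 : coef j (b :: x) x = 1 :=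
        if_pos ((adj_iff j _ _).2 (Or.inr ⟨List.cons_ne_nil _ _, rfl⟩))
      have n1 : x ≠ true :: b :: x := fun h => by
        have := congrArg List.length h
        simp only [List.length_cons] at this
        omega
      have n2 : x ≠ false :: b :: x := fun h => by
        have := congrArg List.length h
        simp only [List.length_cons] at this
        omega
      rw [Finset.sum_insert (by simp [n1.symm]), Finset.sum_insert (by simp [n2.symm]),
        Finset.sum_singleton, e1, e2, e3, one_mul, one_mul, one_mul, ← add_assoc]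
      exact T_cons j b x φ
    · intro y hy
      have : (tree j).Adj (b :: x) y := by
        by_contra h
        exact hy (if_neg h)
      rw [adj_iff] at this
      rcases this with (h | h) | ⟨-, h⟩
      · simp [h]
      · simp [h]
      · have : y = x := h.symm
        simp [this]

theorem label_invariant (j : Bool) :
    IsLabelInvariant (tree j) (fun _ _ => 1) wt (coef j) (T j) where
  selfAdjoint := T_sa j
  apply φ x := T_formula j φ x
  ne_zero_iff x y := by
    unfold coef
    split_ifs with h
    · simp [h]
    · simp [h]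
  symm x y := by
    unfold coef
    by_cases h : (tree j).Adj x y
    · rw [if_pos h, if_pos ((adj_comm j x y).1 h)]; simp
    · rw [if_neg h, if_neg (fun h' => h ((adj_comm j x y).2 h'))]; simp
  norm_sq x y h := by
    have : coef j x y = 1 := if_pos h
    rw [this]
    simp [M1]

theorem sigma_eq : SigmaOne (fun _ _ => (1 : ℝ)) wt = {E : ℝ | E ≠ 0 ∧ E ^ 2 < gg ^ 2} := by
  rw [← Sig_eq]
  unfold SigmaOne Sig
  ext E
  simp only [Complex.ofReal_one, one_mul, Fintype.sum_bool]

theorem sigma_eq' : SigmaOne (fun _ _ => (1 : ℝ)) wt = Set.Ioo (-gg) 0 ∪ Set.Ioo 0 gg := by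
  rw [sigma_eq]
  have hg := gg_pos
  ext E
  constructor
  · rintro ⟨h1, h2⟩
    have h3 := abs_lt_of_sq_lt_sq' h2 hg.le
    rcases lt_or_gt_of_ne h1 with h | h
    · exact Or.inl ⟨h3.1, h⟩
    · exact Or.inr ⟨h, h3.2⟩
  · rintro (⟨h1, h2⟩ | ⟨h1, h2⟩)
    · exact ⟨h2.ne, sq_lt_sq' h1 (by linarith)⟩
    · exact ⟨h1.ne', sq_lt_sq' (by linarith) h2⟩

theorem spec_eq (j : Bool) : realSpectrum (T j) = Set.Icc (-gg) gg := by
  have hg := gg_pos
  apply Set.Subset.antisymm
  · intro E hE
    exact abs_le.1 (spec_bound j hE)
  · have h1 : Set.Ioo (-gg) 0 ∪ Set.Ioo 0 gg ⊆ realSpectrum (T j) := by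
      rw [← sigma_eq']
      intro E hE
      have : E ∈ Sig := by
        rw [Sig_eq, ← sigma_eq]
        exact hE
      exact Sig_subset j this
    have hc : IsClosed (realSpectrum (T j)) :=
      (spectrum.isClosed (𝕜 := ℂ) (T j)).preimage Complex.continuous_ofReal
    have h2 := closure_minimal h1 hc
    rw [closure_union, closure_Ioo (by linarith), closure_Ioo (by linarith),
      Set.Icc_union_Icc_eq_Icc (by linarith) (by linarith)] at h2
    exact h2

theorem spec_components (j : Bool) : numComponents (realSpectrum (T j)) = 1 := by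
  have hg := gg_pos
  rw [spec_eq, numComponents, Nat.card_eq_one_iff_unique]
  have hp : PreconnectedSpace (Set.Icc (-gg) gg) := Subtype.preconnectedSpace isPreconnected_Icc
  have : Nonempty (Set.Icc (-gg) gg) := ⟨⟨0, by constructor <;> linarith⟩⟩
  exact ⟨inferInstance, inferInstance⟩

theorem sigma_components : numComponents (SigmaOne (fun _ _ => (1 : ℝ)) wt) = 2 := by
  have hg := gg_pos
  rw [sigma_eq', numComponents, Nat.card_eq_two_iff]
  set S : Set ℝ := Set.Ioo (-gg) 0 ∪ Set.Ioo 0 gg with hS
  have hm : -gg / 2 ∈ S := Or.inl ⟨by linarith, by linarith⟩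
  have hp : gg / 2 ∈ S := Or.inr ⟨by linarith, by linarith⟩
  have hsame : ∀ (I : Set ℝ), IsPreconnected I → I ⊆ S → ∀ x y : S, (x : ℝ) ∈ I → (y : ℝ) ∈ I →
      (ConnectedComponents.mk x : ConnectedComponents S) = ConnectedComponents.mk y := by
    intro I hI hIS x y hx hy
    rw [ConnectedComponents.coe_eq_coe]
    have h1 : IsPreconnected ((↑) ⁻¹' I : Set S) := by
      rw [← Topology.IsInducing.subtypeVal.isPreconnected_image]
      rw [Subtype.image_preimage_coe]
      rwa [Set.inter_eq_right.2 hIS]
    exact connectedComponent_eq (h1.subset_connectedComponent hx hy)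
  refine ⟨ConnectedComponents.mk ⟨-gg / 2, hm⟩, ConnectedComponents.mk ⟨gg / 2, hp⟩, ?_, ?_⟩
  · intro h
    rw [ConnectedComponents.coe_eq_coe] at h
    have hclopen : IsClopen {x : S | 0 < (x : ℝ)} := by
      constructor
      · have : {x : S | 0 < (x : ℝ)} = {x : S | 0 ≤ (x : ℝ)} := by
          ext x
          constructor
          · intro h
            exact le_of_lt (show (0 : ℝ) < x from h)
          · intro h
            rcases lt_or_eq_of_le (show (0 : ℝ) ≤ x from h) with h | h
            · exact h
            · rcases x.2 with h2 | h2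
              · exact absurd h2.2 (by rw [← h]; exact lt_irrefl _)
              · exact absurd h2.1 (by rw [← h]; exact lt_irrefl _)
        rw [this]
        exact isClosed_le continuous_const continuous_subtype_val
      · exact isOpen_lt continuous_const continuous_subtype_val
    have h1 := hclopen.connectedComponent_subset (x := (⟨gg / 2, hp⟩ : S)) (by
      change 0 < gg / 2; linarith)
    rw [← h] at h1
    have h2 := h1 mem_connectedComponent
    have h3 : 0 < -gg / 2 := h2
    linarith
  · rw [Set.eq_univ_iff_forall]
    intro c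
    obtain ⟨x, rfl⟩ := ConnectedComponents.surjective_coe c
    rcases x.2 with h | h
    · left
      exact hsame (Set.Ioo (-gg) 0) isPreconnected_Ioo Set.subset_union_left _ _ h
        ⟨by change -gg < -gg / 2; linarith, by change -gg / 2 < 0; linarith⟩
    · right
      exact hsame (Set.Ioo 0 gg) isPreconnected_Ioo Set.subset_union_right _ _ h
        ⟨by change 0 < gg / 2; linarith, by change gg / 2 < gg; linarith⟩

/-- **Answer to Q1: yes.**  There are an admissible matrix `M` and constants `m_{j,k}`, `m_j` such
that, for every root label `j`, a label invariant operator on `𝕋(M, j)` with these constants has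
exactly one spectral component, while `Σ₁` has exactly two components. -/
theorem result : ∃ (A : Type) (_ : Fintype A) (_ : DecidableEq A) (M : Matrix A A ℕ)
    (mm : A → A → ℝ) (m : A → ℝ), IsAdmissible M ∧ Nonempty A ∧
      numComponents (SigmaOne mm m) = 2 ∧
      ∀ j : A, ∃ (𝕋 : LabelledTree M j) (t : 𝕋.V → 𝕋.V → ℂ) (T : Op 𝕋.V),
        IsLabelInvariant 𝕋 mm m t T ∧ numComponents (realSpectrum T) = 1 :=
  ⟨Bool, inferInstance, inferInstance, M1, fun _ _ => 1, wt, M1_admissible, ⟨true⟩,
    sigma_components, fun j => ⟨tree j, coef j, T j, label_invariant j, spec_components j⟩⟩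

end Pool.Agent.Results.MP_750254_mp.TwoComponents
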